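import Pool.Agent.H84.SM.Targets

/-!
# MP_70ba79_ag: the generic point of an irreducible curve (row GPT)
-/

set_option autoImplicit false

namespace Pool.Agent.H73.SM

open MvPolynomial Pool.Agent.H84.SM

/-- GPT: generic point -/
theorem pf_GPT : T_GPT := by
  intro k _ G hG
  have hp : Prime G := hG.prime
  have hI : (Ideal.span {G}).IsPrime := (Ideal.span_singleton_prime hp.ne_zero).2 hp
  have hdom : IsDomain (MvPolynomial (Fin 3) k ⧸ Ideal.span {G}) := Ideal.Quotient.isDomain _
  refine ⟨FractionRing (MvPolynomial (Fin 3) k ⧸ Ideal.span {G}), inferInstance, inferInstance,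
    fun i => algebraMap (MvPolynomial (Fin 3) k ⧸ Ideal.span {G}) _
      (Ideal.Quotient.mk (Ideal.span {G}) (X i)), ?_⟩
  intro P
  have h1 : aeval (fun i => algebraMap (MvPolynomial (Fin 3) k ⧸ Ideal.span {G})
      (FractionRing (MvPolynomial (Fin 3) k ⧸ Ideal.span {G}))
      (Ideal.Quotient.mk (Ideal.span {G}) (X i))) P =
      algebraMap (MvPolynomial (Fin 3) k ⧸ Ideal.span {G})
      (FractionRing (MvPolynomial (Fin 3) k ⧸ Ideal.span {G}))
      (Ideal.Quotient.mk (Ideal.span {G}) P) := by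
    have h2 : (aeval (fun i => algebraMap (MvPolynomial (Fin 3) k ⧸ Ideal.span {G})
      (FractionRing (MvPolynomial (Fin 3) k ⧸ Ideal.span {G}))
      (Ideal.Quotient.mk (Ideal.span {G}) (X i))) : MvPolynomial (Fin 3) k →ₐ[k] _) =
      (IsScalarTower.toAlgHom k (MvPolynomial (Fin 3) k ⧸ Ideal.span {G})
      (FractionRing (MvPolynomial (Fin 3) k ⧸ Ideal.span {G}))).comp
        (Ideal.Quotient.mkₐ k (Ideal.span {G})) := by
      refine MvPolynomial.algHom_ext fun i => ?_
      rw [aeval_X]
      rfl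
    rw [h2]
    rfl
  rw [h1]
  constructor
  · intro h
    have h3 := (IsFractionRing.injective (MvPolynomial (Fin 3) k ⧸ Ideal.span {G})
      (FractionRing (MvPolynomial (Fin 3) k ⧸ Ideal.span {G}))) (h.trans (map_zero _).symm)
    exact Ideal.mem_span_singleton.1 (Ideal.Quotient.eq_zero_iff_mem.1 h3)
  · intro h
    rw [Ideal.Quotient.eq_zero_iff_mem.2 (Ideal.mem_span_singleton.2 h), map_zero]

end Pool.Agent.H73.SM
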