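import Pool.Agent.H92.OD.Defs

/-!
# MP_70ba79_ag: Hahn series with exponents in a lattice (helper file for the row LCB)
-/

set_option autoImplicit false

namespace Pool.Agent.H73.SM

open MvPolynomial Pool.Agent.H92.OD

variable {k : Type} [Field k]

theorem lat_add {n : ℕ} {x y : HS k} (hx : Lat n x) (hy : Lat n y) : Lat n (x + y) := by
  intro r hr
  by_cases h : cf x r = 0
  · refine hy r fun h' => hr ?_
    rw [cf_add, h, h', add_zero]
  · exact hx r h

theorem lat_neg {n : ℕ} {x : HS k} (hx : Lat n x) : Lat n (-x) := by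
  intro r hr
  refine hx r fun h => hr ?_
  rw [cf_neg, h, neg_zero]

theorem lat_sub {n : ℕ} {x y : HS k} (hx : Lat n x) (hy : Lat n y) : Lat n (x - y) := by
  rw [sub_eq_add_neg]
  exact lat_add hx (lat_neg hy)

theorem lat_sg (n : ℕ) (c : k) (m : ℤ) : Lat n (sg (m : ℚ) c) := by
  intro r hr
  rw [cf_sg] at hr
  have h : r = m := by
    by_contra h
    rw [if_neg h] at hr
    exact hr rfl
  exact ⟨m * n, by rw [h]; push_cast; ring⟩

theorem lat_const (n : ℕ) (c : k) : Lat n (algebraMap k (HS k) c) := by
  have h := lat_sg n c 0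
  rw [Int.cast_zero] at h
  exact h

theorem lat_uu (n : ℕ) : Lat n (uu k) := by
  have h := lat_sg n (1 : k) 1
  rw [Int.cast_one] at h
  exact h

theorem lat_mul {n : ℕ} {x y : HS k} (hx : Lat n x) (hy : Lat n y) : Lat n (x * y) := by
  classical
  intro r hr
  have h1 : cf (x * y) r = ∑ ij ∈ Finset.antidiagonal
      (HahnSeries.isPWO_support (x : HahnSeries ℚ k)) (HahnSeries.isPWO_support (y : HahnSeries ℚ k)) r,
      cf x ij.1 * cf y ij.2 := HahnSeries.coeff_mul
  rw [h1] at hr
  obtain ⟨ij, hij, hne⟩ := Finset.exists_ne_zero_of_sum_ne_zero hr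
  obtain ⟨m1, h2⟩ := hx _ (left_ne_zero_of_mul hne)
  obtain ⟨m2, h3⟩ := hy _ (right_ne_zero_of_mul hne)
  have h4 : ij.1 + ij.2 = r := (Finset.mem_antidiagonal.1 hij).2.2
  exact ⟨m1 + m2, by rw [← h4, add_mul, h2, h3]; push_cast; ring⟩

/-- the part of a series with exponents in `(1/n) ℤ` -/
noncomputable def lp (n : ℕ) (y : HS k) : HS k := by
  classical
  exact { coeff := fun r => if ∃ m : ℤ, r * n = m then cf y r else 0
          isPWO_support' := (HahnSeries.isPWO_support (y : HahnSeries ℚ k)).mono fun r hr h => hr (by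
            have h' : cf y r = 0 := h
            show (if ∃ m : ℤ, r * n = m then cf y r else 0) = 0
            rw [h', ite_self]) : HahnSeries ℚ k }

open Classical in
theorem cf_lp (n : ℕ) (y : HS k) (r : ℚ) :
    cf (lp n y) r = if ∃ m : ℤ, r * n = m then cf y r else 0 := rfl

theorem lat_inv {n : ℕ} {y : HS k} (hy : Lat n y) : Lat n y⁻¹ := by
  classical
  by_cases h0 : y = 0
  · rw [h0, inv_zero]
    intro r hr
    exact absurd (cf_zero r) hr
  obtain ⟨z, hz⟩ : ∃ z, z = y⁻¹ := ⟨_, rfl⟩
  rw [← hz]
  have hyz : y * z = 1 := by rw [hz]; exact mul_inv_cancel₀ h0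
  have h1 : Lat n (lp n z) := by
    intro r hr
    by_contra hcon
    rw [cf_lp, if_neg hcon] at hr
    exact hr rfl
  have h2 : z - lp n z = 0 := by
    by_contra hne
    obtain ⟨s, hs⟩ := exists_IsO hne
    obtain ⟨r, hr⟩ := exists_IsO h0
    have h3 := (hr.mul hs).1
    obtain ⟨m1, hm1⟩ := hy r hr.1
    have hsn : ¬ ∃ m : ℤ, s * n = m := by
      intro h
      have := hs.1
      rw [cf_sub, cf_lp, if_pos h, sub_self] at this
      exact this rfl
    have h4 : cf (y * (z - lp n z)) (r + s) = 0 := by
      rw [mul_sub, hyz, cf_sub]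
      have e1 : cf (1 : HS k) (r + s) = 0 := by
        rw [← sg_zero_one, cf_sg, if_neg]
        intro h
        refine hsn ⟨-m1, ?_⟩
        have : s = -r := by linarith
        rw [this, neg_mul, hm1]
        push_cast
        ring
      have e2 : cf (y * lp n z) (r + s) = 0 := by
        by_contra h
        obtain ⟨m2, hm2⟩ := lat_mul hy h1 _ h
        refine hsn ⟨m2 - m1, ?_⟩
        rw [add_mul, hm1] at hm2
        push_cast
        linarith
      rw [e1, e2, sub_zero]
    exact h3 h4
  rw [sub_eq_zero.1 h2]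
  exact h1

theorem geO_aeval {f : Fin 2 → HS k} (hf : ∀ i, geO 0 (f i)) (P : MvPolynomial (Fin 2) k) :
    geO 0 (aeval f P) := by
  induction P using MvPolynomial.induction_on with
  | C a =>
    rw [algHom_C]
    exact geO_sg 0 a
  | add p q hp hq =>
    rw [map_add]
    exact geO_add hp hq
  | mul_X p i hp =>
    rw [map_mul, aeval_X]
    have h := geO_mul hp (hf i)
    rw [add_zero] at h
    exact h

/-- difference of two values of a polynomial -/
theorem geO_diff {y U : HS k} {m : ℚ} (hm : 0 ≤ m) (hy : geO 0 y) (hU : geO m U)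
    (P : MvPolynomial (Fin 2) k) :
    geO m (aeval ![uu k, y + U] P - aeval ![uu k, y] P) := by
  have hu : geO 0 (uu k) := geO_mono (geO_sg 1 1) (by norm_num)
  have hf : ∀ i, geO 0 ((![uu k, y] : Fin 2 → HS k) i) := by
    intro i
    fin_cases i
    · exact hu
    · exact hy
  induction P using MvPolynomial.induction_on with
  | C a =>
    rw [algHom_C, algHom_C, sub_self]
    exact geO_zero m
  | add p q hp hq =>
    rw [map_add, map_add]
    have e : aeval ![uu k, y + U] p + aeval ![uu k, y + U] q -
        (aeval ![uu k, y] p + aeval ![uu k, y] q) =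
        (aeval ![uu k, y + U] p - aeval ![uu k, y] p) +
        (aeval ![uu k, y + U] q - aeval ![uu k, y] q) := by ring
    rw [e]
    exact geO_add hp hq
  | mul_X p i hp =>
    rw [map_mul, map_mul, aeval_X, aeval_X]
    have h0 := geO_aeval hf p
    fin_cases i
    · show geO m (aeval ![uu k, y + U] p * uu k - aeval ![uu k, y] p * uu k)
      rw [← sub_mul]
      have h := geO_mul hp hu
      rw [add_zero] at h
      exact h
    · show geO m (aeval ![uu k, y + U] p * (y + U) - aeval ![uu k, y] p * y)
      have e : aeval ![uu k, y + U] p * (y + U) - aeval ![uu k, y] p * y =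
          (aeval ![uu k, y + U] p - aeval ![uu k, y] p) * (y + U) + aeval ![uu k, y] p * U := by
        ring
      rw [e]
      have h1 := geO_mul hp (geO_add hy (geO_mono hU hm))
      rw [add_zero] at h1
      have h2 := geO_mul h0 hU
      rw [zero_add] at h2
      exact geO_add h1 h2

end Pool.Agent.H73.SM
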