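import Pool.Agent.H84.SM.Targets2
import Pool.Agent.H27.LV.Curve
import Pool.Agent.H73.SM.LatR

/-!
# MP_70ba79_ag: contact at the points where `A` does not vanish (row LCB)
-/

set_option autoImplicit false

namespace Pool.Agent.H73.SM

open MvPolynomial SC Pool.Agent.H27.LV Pool.Agent.H84.SM
open Pool.Agent.H92.OD (HS cf sg uu Lat geO IsO DF DD)

section Lin

theorem dp3 {L : Type} [CommRing L] (a b : Fin 3 → L) :
    dp a b = a 0 * b 0 + a 1 * b 1 + a 2 * b 2 := by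
  unfold dp
  rw [Fin.sum_univ_three]

theorem cr0 {L : Type} [CommRing L] (a b : Fin 3 → L) : cr a b 0 = a 1 * b 2 - a 2 * b 1 := rfl

theorem cr1 {L : Type} [CommRing L] (a b : Fin 3 → L) : cr a b 1 = a 2 * b 0 - a 0 * b 2 := rfl

theorem cr2 {L : Type} [CommRing L] (a b : Fin 3 → L) : cr a b 2 = a 0 * b 1 - a 1 * b 0 := rfl

theorem dt3 {L : Type} [CommRing L] (a b c : Fin 3 → L) :
    dt a b c = a 0 * (b 1 * c 2 - b 2 * c 1) + a 1 * (b 2 * c 0 - b 0 * c 2) +
      a 2 * (b 0 * c 1 - b 1 * c 0) := by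
  unfold dt
  rw [dp3, cr0, cr1, cr2]

/-- Cramer's rule -/
theorem cramer {L : Type} [CommRing L] (s u1 u2 x : Fin 3 → L) (i : Fin 3) :
    dt s u1 u2 * x i = dp (cr u1 u2) x * s i + dp (cr u2 s) x * u1 i + dp (cr s u1) x * u2 i := by
  rw [dt3, dp3, dp3, dp3, cr0, cr1, cr2, cr0, cr1, cr2, cr0, cr1, cr2]
  fin_cases i
  · show _ * x 0 = _ * s 0 + _ * u1 0 + _ * u2 0
    ring
  · show _ * x 1 = _ * s 1 + _ * u1 1 + _ * u2 1
    ring
  · show _ * x 2 = _ * s 2 + _ * u1 2 + _ * u2 2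
    ring

end Lin

section Core

variable {k K : Type} [Field k] [Field K] [Algebra k K]

/-- value at `x` of a linear form with constant coefficients -/
def lf (a : Fin 3 → k) (x : Fin 3 → K) : K := ∑ i, algebraMap k K (a i) * x i

theorem ge_lf (v : DV k K) {x : Fin 3 → K} {s : Fin 3 → k} {z : K}
    (hz : ∀ i, ge v 1 (z * x i - algebraMap k K (s i))) (a : Fin 3 → k) :
    ge v 1 (z * lf a x - algebraMap k K (dp a s)) := by
  have e : z * lf a x - algebraMap k K (dp a s) =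
      ∑ i, algebraMap k K (a i) * (z * x i - algebraMap k K (s i)) := by
    unfold lf dp
    rw [map_sum, Finset.mul_sum, ← Finset.sum_sub_distrib]
    refine Finset.sum_congr rfl fun i _ => ?_
    rw [map_mul]
    ring
  rw [e]
  refine ge_sum v _ _ _ fun i _ => ?_
  have h := (ge_const v (a i)).mul (hz i)
  rw [zero_add] at h
  exact h

theorem aeval_homR {P : MvPolynomial (Fin 3) k} {d : ℕ} (hG : P.IsHomogeneous d) (x : Fin 3 → K)
    (c : K) : aeval (fun i => c * x i) P = c ^ d * aeval x P := by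
  rw [aeval_def, aeval_def, eval₂_eq', eval₂_eq', Finset.mul_sum]
  refine Finset.sum_congr rfl fun m hm => ?_
  have h1 : ∑ i, m i = d := by
    have := hG (mem_support_iff.1 hm)
    rw [Finsupp.weight_apply, Finsupp.sum_fintype _ _ (by simp)] at this
    simpa using this
  have h2 : ∏ i, (c * x i) ^ m i = c ^ d * ∏ i, x i ^ m i := by
    rw [← h1, ← Finset.prod_pow_eq_pow_sum, ← Finset.prod_mul_distrib]
    exact Finset.prod_congr rfl fun i _ => mul_pow _ _ _
  rw [h2]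
  ring

theorem aeval_gU (G : MvPolynomial (Fin 3) k) (u0 u1 u2 : Fin 3 → k) {L : Type} [CommRing L]
    [Algebra k L] (X Y : L) :
    aeval ![X, Y] (gU G u0 u1 u2) = aeval (pa u0 u1 u2 X Y) G := by
  unfold gU
  rw [← AlgHom.comp_apply]
  congr 1
  refine MvPolynomial.algHom_ext fun i => ?_
  rw [AlgHom.comp_apply, aeval_X, aeval_X]
  unfold pa
  rw [map_add, map_add, map_mul, map_mul]
  simp only [algebraMap_eq, algHom_C, aeval_X]
  rfl

end Core

section Main

theorem inv_uu_sq {k : Type} [Field k] (y : HS k) : y / uu k ^ 2 = sg (-2) 1 * y := by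
  have h : sg (-2) (1 : k) * uu k ^ 2 = 1 := by
    rw [Pool.Agent.H92.OD.uu_pow, Pool.Agent.H92.OD.sg_mul_sg, one_mul]
    norm_num
    rfl
  have h0 : uu k ^ 2 ≠ 0 := fun h0 => by
    rw [h0, mul_zero] at h
    exact zero_ne_one h
  rw [div_eq_iff h0, mul_assoc, mul_comm y, ← mul_assoc, h, one_mul]

theorem inv_uu {k : Type} [Field k] (y : HS k) : y / uu k = sg (-1) 1 * y := by
  have h : sg (-1) (1 : k) * uu k = 1 := by
    unfold Pool.Agent.H92.OD.uu
    rw [Pool.Agent.H92.OD.sg_mul_sg, one_mul]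
    norm_num
    rfl
  have h0 : uu k ≠ 0 := fun h0 => by
    rw [h0, mul_zero] at h
    exact zero_ne_one h
  rw [div_eq_iff h0, mul_assoc, mul_comm y, ← mul_assoc, h, one_mul]

/-- the equation of the connection for the image of the curve in the Hahn series -/
theorem core_sol {k K : Type} [Field k] [CharZero k] [Field K] [Algebra k K] (hAFE : T_AFE)
    (hCRE : T_CRE) (D : Derivation k K K) (α : ℕ) (A : MvPolynomial (Fin 3) k) (b : A2 k)
    (u0 u1 u2 : Fin 3 → k) (x : Fin 3 → K) (l0 X Y μ : K) (hA : A.IsHomogeneous α)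
    (hb : BH α 3 b) (hi : dv b = 0) (hl0 : l0 ≠ 0) (hX : X ≠ 0) (hDX : (μ • D) X = X)
    (hx : ∀ i, x i = l0 * pa u0 u1 u2 X Y i) (hE : CEq D A b x) (Ph : K →ₐ[k] HS k)
    (hPX : Ph X = uu k) (hPD : ∀ z, Ph ((μ • D) z) = DF (Ph z)) :
    Sol (aU A u0 u1 u2) (bU b u0 u1 u2) (Ph Y) := by
  have h1 := hCRE k K D α A b x 1 μ hA hb hi
  simp only [one_mul] at h1
  unfold CEq at hE
  rw [hE, mul_zero] at h1
  have h2 := hAFE k K (μ • D) α A b u0 u1 u2 x l0 X Y hA hb hi hl0 hX hDX hx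
  rw [h1] at h2
  have h3 : aeval ![X, Y] (aU A u0 u1 u2) * (((μ • D) ((μ • D) Y) - (μ • D) Y) / X ^ 2) +
      aeval ![X, Y, (μ • D) Y / X] (bU b u0 u1 u2) = 0 := by
    rcases mul_eq_zero.1 h2.symm with h | h
    · exact absurd h (mul_ne_zero (pow_ne_zero _ hl0) (pow_ne_zero _ hX))
    · exact h
  have h4 := congrArg Ph h3
  rw [map_add, map_mul, map_zero, map_div₀, map_sub, hPD, hPD, map_pow, hPX, inv_uu_sq] at h4
  have e1 : Ph (aeval ![X, Y] (aU A u0 u1 u2)) = aeval ![uu k, Ph Y] (aU A u0 u1 u2) := by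
    rw [← AlgHom.comp_apply]
    congr 1
    refine MvPolynomial.algHom_ext fun i => ?_
    rw [AlgHom.comp_apply, aeval_X, aeval_X]
    fin_cases i
    · exact hPX
    · rfl
  have e2 : Ph (aeval ![X, Y, (μ • D) Y / X] (bU b u0 u1 u2)) =
      aeval ![uu k, Ph Y, y1 (Ph Y)] (bU b u0 u1 u2) := by
    rw [← AlgHom.comp_apply]
    congr 1
    refine MvPolynomial.algHom_ext fun i => ?_
    rw [AlgHom.comp_apply, aeval_X, aeval_X]
    fin_cases i
    · exact hPX
    · rfl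
    · show Ph ((μ • D) Y / X) = y1 (Ph Y)
      rw [map_div₀, hPD, hPX, inv_uu]
      rfl
  rw [e1, e2] at h4
  exact h4

/-- LCB in a frame -/
theorem core (hBRG : T_BRG) (hRAM : T_RAM) (hBAS : T_BAS) (hAFE : T_AFE) (hCRE : T_CRE)
    (hCEN : T_CEN) (k : Type) [Field k] [IsAlgClosed k] [CharZero k]
    (G : MvPolynomial (Fin 3) k) (d α : ℕ) (A : MvPolynomial (Fin 3) k) (b : A2 k) (hd : 2 ≤ d)
    (hG : Smooth G d) (hirr : Irreducible G) (hC : Conn G α A b) (hα : α < d) (s : Fin 3 → k)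
    (hs : s ≠ 0) (hGs : eval s G = 0) (hAs : eval s A ≠ 0) (K : Type) [Field K] [Algebra k K]
    [Algebra.EssFiniteType k K] (htr : Algebra.trdeg k K = 1) (D : Derivation k K K) (hD : D ≠ 0)
    (x : Fin 3 → K) (v : DV k K) (hone : ∃ j, x j = 1) (hP : Prim k x)
    (hGx : aeval x G ≠ 0) (hE : CEq D A b x) (z : K) (hz : z ≠ 0)
    (hzs : ∀ i, ge v 1 (z * x i - algebraMap k K (s i))) (u1 u2 : Fin 3 → k)
    (hdt : dt s u1 u2 ≠ 0) (hg : dp (gr G s) u2 ≠ 0) (l0 l1 l2 : K)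
    (hx : ∀ i, x i = l0 * algebraMap k K (s i) + l1 * algebraMap k K (u1 i) +
      l2 * algebraMap k K (u2 i)) (hl0 : ge v 1 (z * l0 - 1)) (hl1 : ge v 1 (z * l1))
    (hl10 : l1 ≠ 0) (hl20 : l2 ≠ 0) (hle : v.ord l1 ≤ v.ord l2) : nord v x d G ≤ 1 := by
  -- the unit `z l0`
  have hu : z * l0 ≠ 0 ∧ v.ord (z * l0) = 0 := by
    have h := v.ord_add_eq_left (x := (1 : K)) (y := z * l0 - 1) one_ne_zero (fun h => by
      rw [v.ord_one]
      have := hl0.resolve_left h
      omega)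
    rw [v.ord_one, add_sub_cancel] at h
    exact h
  have hl00 : l0 ≠ 0 := right_ne_zero_of_mul hu.1
  have hvl0 : v.ord z + v.ord l0 = 0 := by rw [← v.ord_mul' hz hl00]; exact hu.2
  have hvl1 : 1 ≤ v.ord z + v.ord l1 := by
    rw [← v.ord_mul' hz hl10]
    exact hl1.resolve_left (mul_ne_zero hz hl10)
  obtain ⟨X, hXdef⟩ : ∃ X, X = l1 / l0 := ⟨_, rfl⟩
  obtain ⟨Y, hYdef⟩ : ∃ Y, Y = l2 / l0 := ⟨_, rfl⟩
  have hX0 : X ≠ 0 := by rw [hXdef]; exact div_ne_zero hl10 hl00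
  have hY0 : Y ≠ 0 := by rw [hYdef]; exact div_ne_zero hl20 hl00
  have hvX : v.ord X = v.ord l1 - v.ord l0 := by rw [hXdef, v.ord_div hl10 hl00]
  have hvY : v.ord Y = v.ord l2 - v.ord l0 := by rw [hYdef, v.ord_div hl20 hl00]
  have hxpa : ∀ i, x i = l0 * pa s u1 u2 X Y i := by
    intro i
    rw [hx i, hXdef, hYdef]
    unfold pa
    field_simp
  obtain ⟨n, hn⟩ : ∃ n : ℕ, (n : ℤ) = v.ord X := ⟨(v.ord X).toNat, by omega⟩
  have hn1 : 0 < n := by omega
  -- the derivation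
  have hDX : D X ≠ 0 := by
    intro h
    obtain ⟨c, hc⟩ := ker k K htr D hD X h
    have := v.ord_base c
    rw [hc] at this
    omega
  have hDX1 : ((X / D X) • D) X = X := by
    rw [Derivation.smul_apply, smul_eq_mul, div_mul_cancel₀ _ hDX]
  obtain ⟨Ph, hPX, hPL, hPO, hPD⟩ := hBRG k K htr v X n hn1 hn.symm ((X / D X) • D) hDX1
  have hsol := core_sol hAFE hCRE D α A b s u1 u2 x l0 X Y (X / D X) hC.hA hC.hb hC.inv hl00 hX0
    hDX1 hxpa hE Ph hPX hPD
  obtain ⟨φ, a, hBas, ha0, -, hord⟩ := hBAS k G d α A b hd hG hirr hC hα s u1 u2 hdt hGs hg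
  have ha : a = 0 := ha0 hAs
  subst ha
  obtain ⟨N, -, hN, hram⟩ := hRAM k _ _ φ 0 hBas
  have hN1 := hN rfl
  subst hN1
  have hnq : (0 : ℚ) < n := by exact_mod_cast hn1
  -- the difference
  obtain ⟨U, hU⟩ : ∃ U, U = Ph Y - φ := ⟨_, rfl⟩
  have hφU : φ + U = Ph Y := by rw [hU]; ring
  have hyO := hPO Y hY0
  have hY1 : geO 1 (Ph Y) := by
    refine Pool.Agent.H92.OD.geO_mono hyO.2 ?_
    rw [le_div_iff₀ hnq, one_mul]
    exact_mod_cast (by omega : (n : ℤ) ≤ v.ord Y)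
  have hU1 : geO 1 U := by
    rw [hU]
    exact Pool.Agent.H92.OD.geO_sub hY1 hBas.pos
  have hLn : ∀ w : HS k, Lat 1 w → Lat n w := by
    intro w hw r hr
    obtain ⟨m, hm⟩ := hw r hr
    refine ⟨m * n, ?_⟩
    rw [Nat.cast_one, mul_one] at hm
    rw [hm]
    push_cast
    ring
  have hUL : ∃ n : ℕ, 0 < n ∧ Lat n U := ⟨n, hn1, by
    rw [hU]
    exact lat_sub (hPL Y) (hLn φ hBas.lat)⟩
  obtain ⟨hL1, hle1⟩ := hram U ⟨hU1, 1, by norm_num, hU1⟩ hUL (by rw [hφU]; exact hsol)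
  -- all elements have integral exponents
  have hLY : Lat 1 (Ph Y) := by rw [← hφU]; exact lat_add hBas.lat hL1
  have hLpa : ∀ i, Lat 1 (Ph (pa s u1 u2 X Y i)) := by
    intro i
    unfold pa
    rw [map_add, map_add, map_mul, map_mul, hPX, AlgHom.commutes, AlgHom.commutes,
      AlgHom.commutes]
    exact lat_add (lat_add (lat_const 1 _) (lat_mul (lat_uu 1) (lat_const 1 _)))
      (lat_mul hLY (lat_const 1 _))
  have hLl0 : Lat 1 (Ph l0) := by
    obtain ⟨j, hj⟩ := hone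
    have h1 := hxpa j
    rw [hj] at h1
    have h2 : l0 = (pa s u1 u2 X Y j)⁻¹ := eq_inv_of_mul_eq_one_left h1.symm
    rw [h2, map_inv₀]
    exact lat_inv (hLpa j)
  have hLall : ∀ w : K, Lat 1 (Ph w) := by
    intro w
    have hw : w ∈ IntermediateField.adjoin k (Set.range x) := by
      rw [hP]
      exact IntermediateField.mem_top
    induction hw using IntermediateField.adjoin_induction with
    | mem w hw =>
      obtain ⟨i, rfl⟩ := hw
      rw [hxpa i, map_mul]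
      exact lat_mul hLl0 (hLpa i)
    | algebraMap c =>
      rw [AlgHom.commutes]
      exact lat_const 1 c
    | add w w' _ _ h1 h2 => rw [map_add]; exact lat_add h1 h2
    | mul w w' _ _ h1 h2 => rw [map_mul]; exact lat_mul h1 h2
    | inv w _ h1 => rw [map_inv₀]; exact lat_inv h1
  have hn_one : n = 1 := by
    have h1 := hPO v.unif v.unif_ne_zero
    rw [v.ord_unif] at h1
    obtain ⟨m, hm⟩ := hLall v.unif _ h1.1
    have h2 : (1 : ℚ) = m * n := by
      rw [← hm]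
      field_simp
      norm_num
    have h3 : (1 : ℤ) = m * n := by exact_mod_cast h2
    have h4 : (n : ℤ) ∣ 1 := ⟨m, by rw [h3]; ring⟩
    have h5 := Int.le_of_dvd one_pos h4
    omega
  subst hn_one
  -- the order of `G`
  obtain ⟨g, hgdef⟩ : ∃ g, g = aeval (pa s u1 u2 X Y) G := ⟨_, rfl⟩
  have hxg : aeval x G = l0 ^ d * g := by
    rw [hgdef, ← aeval_homR hG.1]
    congr 1
    exact congrArg aeval (funext hxpa)
  have hg0 : g ≠ 0 := fun h => hGx (by rw [hxg, h, mul_zero])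
  have hnord : nord v x d G = v.ord g := by
    have h1 := ((hCEN k K htr v x hone).2 s hs z hz hzs).2 d G hG.1 hGx
    rw [h1.1]
    have h2 : (fun i => z * x i) = fun i => (z * l0) * pa s u1 u2 X Y i := by
      funext i
      rw [hxpa i, mul_assoc]
    rw [h2, aeval_homR hG.1, ← hgdef, v.ord_mul' (pow_ne_zero _ hu.1) hg0, v.ord_pow, hu.2]
    ring
  rw [hnord]
  have hPg : Ph g = aeval ![uu k, φ + U] (gU G s u1 u2) := by
    rw [hφU, hgdef, ← aeval_gU, ← AlgHom.comp_apply]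
    congr 1
    refine MvPolynomial.algHom_ext fun i => ?_
    rw [AlgHom.comp_apply, aeval_X, aeval_X]
    fin_cases i
    · exact hPX
    · rfl
  have hgO := hPO g hg0
  rw [hPg, Nat.cast_one, div_one] at hgO
  by_cases hU0 : U = 0
  · exfalso
    obtain ⟨m, hm⟩ : ∃ m : ℕ, v.ord g < (m : ℤ) ∧ 0 < m :=
      ⟨(v.ord g).toNat + 1, by omega, by omega⟩
    have hmq : (0 : ℚ) < m := by exact_mod_cast hm.2
    have h1 : IsO (sg (m : ℚ) (1 : k)) (m : ℚ) :=
      ⟨by rw [Pool.Agent.H92.OD.cf_sg, if_pos rfl]; exact one_ne_zero,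
        Pool.Agent.H92.OD.geO_sg _ 1⟩
    have h2 := hord _ _ hmq h1
    have h3 := geO_diff (m := (m : ℚ)) hmq.le
      (Pool.Agent.H92.OD.geO_mono hBas.pos (by norm_num)) h1.2 (gU G s u1 u2)
    have h4 : geO (m : ℚ) (aeval ![uu k, φ] (gU G s u1 u2)) := by
      have h5 := Pool.Agent.H92.OD.geO_sub h2.2 h3
      rw [sub_sub_cancel] at h5
      exact h5
    rw [hU0, add_zero] at hgO
    exact hgO.1 (h4 _ (by exact_mod_cast hm.1))
  · obtain ⟨μ, hμ⟩ := Pool.Agent.H92.OD.exists_IsO hU0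
    have hμ0 : 0 < μ := by
      by_contra hcon
      exact hμ.1 (hU1 μ (by linarith [not_lt.1 hcon]))
    have h1 := (hord U μ hμ0 hμ).unique hgO
    have h2 := hle1 μ hμ
    rw [h1] at h2
    have h3 : ((v.ord g : ℤ) : ℚ) ≤ ((1 : ℤ) : ℚ) := by simpa using h2
    exact_mod_cast h3

/-- LCB: contact at the points where `A` does not vanish -/
theorem pf_LCB (hBRG : T_BRG) (hRAM : T_RAM) (hBAS : T_BAS) (hAFE : T_AFE) (hCRE : T_CRE)
    (hCEN : T_CEN) : T_LCB := by
  intro k _ _ _ G d α A b hd hG hirr hC hα s hs hGs hAs K _ _ _ htr D hD x v hone hP hNL hGx hAx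
    hE hCn
  obtain ⟨z, hz, hzs⟩ := hCn
  obtain ⟨g, hgdef⟩ : ∃ g, g = gr G s := ⟨_, rfl⟩
  have hgi : ∀ i, g i = eval s (pderiv i G) := by
    intro i
    rw [hgdef]
    unfold gr
    rw [← coe_aeval_eq_eval]
    rfl
  obtain ⟨j, hj⟩ : ∃ j, g j ≠ 0 := by
    by_contra hcon
    push Not at hcon
    exact hs (hG.2 s fun i => by rw [← hgi]; exact hcon i)
  obtain ⟨i, hi⟩ : ∃ i, s i ≠ 0 := by
    by_contra hcon
    push Not at hcon
    exact hs (funext hcon)
  have hgs : dp g s = 0 := by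
    have h := congrArg (eval s) hG.1.sum_X_mul_pderiv
    rw [map_sum, map_nsmul, hGs, smul_zero] at h
    unfold dp
    rw [← h]
    refine Finset.sum_congr rfl fun i _ => ?_
    rw [map_mul, eval_X, hgi, mul_comm]
  obtain ⟨u2, hu2⟩ : ∃ u2 : Fin 3 → k, u2 = Pi.single j 1 := ⟨_, rfl⟩
  obtain ⟨w, hw⟩ : ∃ w : Fin 3 → k, w = Pi.single i 1 := ⟨_, rfl⟩
  have hgu2 : dp g u2 = g j := by
    rw [hu2]
    unfold dp
    simp [Pi.single_apply]
  have hsw : dp s w = s i := by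
    rw [hw]
    unfold dp
    simp [Pi.single_apply]
  obtain ⟨u1, hu1⟩ : ∃ u1, u1 = cr g w := ⟨_, rfl⟩
  have hgu1 : dp g u1 = 0 := by
    rw [hu1, dp3, cr0, cr1, cr2]
    ring
  have hΔ : dt s u1 u2 = dp g u2 * dp s w - dp g s * dp w u2 := by
    rw [hu1, dt3, cr0, cr1, cr2, dp3, dp3, dp3, dp3]
    ring
  have hΔ0 : dt s u1 u2 ≠ 0 := by
    rw [hΔ, hgs, zero_mul, sub_zero, hgu2, hsw]
    exact mul_ne_zero hj hi
  -- coordinates
  obtain ⟨δ, hδ⟩ : ∃ δ, δ = (dt s u1 u2)⁻¹ := ⟨_, rfl⟩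
  have hδ1 : δ * dt s u1 u2 = 1 := by rw [hδ]; exact inv_mul_cancel₀ hΔ0
  obtain ⟨a0, ha0⟩ : ∃ a0 : Fin 3 → k, a0 = fun i => δ * cr u1 u2 i := ⟨_, rfl⟩
  obtain ⟨a1, ha1⟩ : ∃ a1 : Fin 3 → k, a1 = fun i => δ * cr u2 s i := ⟨_, rfl⟩
  obtain ⟨a2, ha2⟩ : ∃ a2 : Fin 3 → k, a2 = fun i => δ * cr s u1 i := ⟨_, rfl⟩
  have h00 : dp a0 s = 1 := by
    rw [← hδ1, ha0, dp3, dt3, cr0, cr1, cr2]
    ring
  have h10 : dp a1 s = 0 := by
    rw [ha1, dp3, cr0, cr1, cr2]
    ring
  have h20 : dp a2 s = 0 := by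
    rw [ha2, dp3, cr0, cr1, cr2]
    ring
  have h11 : dp a1 u1 = 1 := by
    rw [← hδ1, ha1, dp3, dt3, cr0, cr1, cr2]
    ring
  have h22 : dp a2 u2 = 1 := by
    rw [← hδ1, ha2, dp3, dt3, cr0, cr1, cr2]
    ring
  have hne : ∀ a u : Fin 3 → k, dp a u = 1 → a ≠ 0 := by
    intro a u h h0
    rw [h0, dp3] at h
    simp at h
  have hxc : ∀ i, x i = lf a0 x * algebraMap k K (s i) + lf a1 x * algebraMap k K (u1 i) +
      lf a2 x * algebraMap k K (u2 i) := by
    intro i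
    have h1 := cramer (fun i => algebraMap k K (s i)) (fun i => algebraMap k K (u1 i))
      (fun i => algebraMap k K (u2 i)) x i
    have e0 : lf a0 x = algebraMap k K δ *
        dp (cr (fun i => algebraMap k K (u1 i)) fun i => algebraMap k K (u2 i)) x := by
      unfold lf
      rw [ha0, Fin.sum_univ_three, dp3, cr0, cr1, cr2]
      simp only [cr0, cr1, cr2, map_mul, map_sub]
      ring
    have e1 : lf a1 x = algebraMap k K δ *
        dp (cr (fun i => algebraMap k K (u2 i)) fun i => algebraMap k K (s i)) x := by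
      unfold lf
      rw [ha1, Fin.sum_univ_three, dp3, cr0, cr1, cr2]
      simp only [cr0, cr1, cr2, map_mul, map_sub]
      ring
    have e2 : lf a2 x = algebraMap k K δ *
        dp (cr (fun i => algebraMap k K (s i)) fun i => algebraMap k K (u1 i)) x := by
      unfold lf
      rw [ha2, Fin.sum_univ_three, dp3, cr0, cr1, cr2]
      simp only [cr0, cr1, cr2, map_mul, map_sub]
      ring
    have e3 : dt (fun i => algebraMap k K (s i)) (fun i => algebraMap k K (u1 i))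
        (fun i => algebraMap k K (u2 i)) = algebraMap k K (dt s u1 u2) := by
      rw [dt3, dt3]
      simp only [map_mul, map_sub, map_add]
    have e4 : algebraMap k K δ * algebraMap k K (dt s u1 u2) = 1 := by
      rw [← map_mul, hδ1, map_one]
    rw [e3] at h1
    rw [e0, e1, e2]
    calc x i = algebraMap k K δ * (algebraMap k K (dt s u1 u2) * x i) := by
          rw [← mul_assoc, e4, one_mul]
      _ = _ := by rw [h1]; ring
  have hl0 : ge v 1 (z * lf a0 x - 1) := by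
    have h := ge_lf v hzs a0
    rw [h00, map_one] at h
    exact h
  have hl1 : ge v 1 (z * lf a1 x) := by
    have h := ge_lf v hzs a1
    rw [h10, map_zero, sub_zero] at h
    exact h
  have hl2 : ge v 1 (z * lf a2 x) := by
    have h := ge_lf v hzs a2
    rw [h20, map_zero, sub_zero] at h
    exact h
  have hl10 : lf a1 x ≠ 0 := hNL a1 (hne a1 u1 h11)
  have hl20 : lf a2 x ≠ 0 := hNL a2 (hne a2 u2 h22)
  by_cases hle : v.ord (lf a1 x) ≤ v.ord (lf a2 x)
  · exact core hBRG hRAM hBAS hAFE hCRE hCEN k G d α A b hd hG hirr hC hα s hs hGs hAs K htr D hD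
      x v hone hP hGx hE z hz hzs u1 u2 hΔ0 (by rw [← hgdef, hgu2]; exact hj) (lf a0 x) (lf a1 x)
      (lf a2 x) hxc hl0 hl1 hl10 hl20 hle
  · have hlt := not_le.1 hle
    have h1 := v.ord_add_eq_left hl20 (fun _ => hlt)
    refine core hBRG hRAM hBAS hAFE hCRE hCEN k G d α A b hd hG hirr hC hα s hs hGs hAs K htr D hD
      x v hone hP hGx hE z hz hzs u1 (fun i => u2 i - u1 i) ?_ ?_ (lf a0 x)
      (lf a2 x + lf a1 x) (lf a2 x) ?_ hl0 ?_ h1.1 hl20 h1.2.le
    · have e : dt s u1 (fun i => u2 i - u1 i) = dt s u1 u2 := by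
        rw [dt3, dt3]
        ring
      rw [e]
      exact hΔ0
    · have e : dp (gr G s) (fun i => u2 i - u1 i) = dp g u2 - dp g u1 := by
        rw [← hgdef, dp3, dp3, dp3]
        ring
      rw [e, hgu1, hgu2, sub_zero]
      exact hj
    · intro i
      rw [map_sub]
      rw [hxc i]
      ring
    · rw [mul_add]
      exact hl2.add hl1

end Main

end Pool.Agent.H73.SM
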