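import Pool.Agent.H20.SM.Targets
import Pool.Agent.H37.CV.All

/-!
# Row DAg: the diagonal term with a real parameter (helper73, after `H96/CV/DA.lean`)
-/

set_option autoImplicit false

open NumberField NumberField.InfinitePlace Complex Filter Topology MeasureTheory

namespace Pool.Agent.H73.SM

open Pool.Agent.H28.RC Pool.Agent.H25.HK Pool.Agent.H37.CV Pool.Agent.H20.SM

theorem pf_DAg : T_DAg := by
  classical
  intro K _ _ _ δ₀ C₀ η hδ₀ hC₀ hη
  set V : ℝ := 1 + C₀ with hV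
  have hV0 : 0 < V := by positivity
  set ε : ℝ := η / (2 * V + η) with hε
  have hε0 : 0 < ε := by positivity
  have hε1 : ε < 1 := by
    rw [hε, div_lt_one (by positivity)]
    linarith
  have h1ε : 0 < 1 - ε := by linarith
  have hVε : V / (1 - ε) = V + η / 2 := by
    rw [div_eq_iff h1ε.ne', hε]
    field_simp
    ring
  have hrho : 0 < rho K := dedekindZeta_residue_pos K
  obtain ⟨M₁, hM₁, hG1⟩ := a_GL K ε hε0
  obtain ⟨M₂, hM₂, hL1⟩ := a_LS K ε hε0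
  obtain ⟨CU, hU0, hU1, hU2⟩ := a_GU K
  obtain ⟨C₁, CS, hCS⟩ := a_VS K
  -- constants
  set c₆ : ℝ := (2 * rho K * |CU| + 2 * |C₁.re|) / ((1 - ε) * rho K) with hc₆
  have hc₆0 : 0 ≤ c₆ := by positivity
  set c₇ : ℝ := 2 * (|CU| * (1 + 48 / δ₀)) ^ 3 * |CS| with hc₇
  -- limits
  have t3 : Tendsto (fun M : ℝ => c₆ / Real.log M) atTop (𝓝 0) :=
    Tendsto.div_atTop tendsto_const_nhds Real.tendsto_log_atTop
  have t4 : Tendsto (fun M : ℝ => c₇ * M ^ (-(δ₀ / 16))) atTop (𝓝 0) := by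
    have := (tendsto_rpow_neg_atTop (show 0 < δ₀ / 16 by positivity)).const_mul c₇
    simpa using this
  have ev := (((eventually_ge_atTop (max (max M₁ M₂) 2)).and (t3.eventually_lt_const
    (show (0 : ℝ) < η / 4 by positivity))).and (t4.eventually_lt_const
    (show (0 : ℝ) < η / 4 by positivity)))
  obtain ⟨M₀, hM₀⟩ := eventually_atTop.1 ev
  refine ⟨M₀, fun M Q hM hQM hQM' => ?_⟩
  obtain ⟨⟨e1, e2⟩, e3⟩ := hM₀ M hM
  have hMM1 : M₁ ≤ M := (le_max_left _ _).trans ((le_max_left _ _).trans e1)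
  have hMM2 : M₂ ≤ M := (le_max_right _ _).trans ((le_max_left _ _).trans e1)
  have hM2 : 2 ≤ M := (le_max_right _ _).trans e1
  have hM1 : 1 ≤ M := by linarith
  have hMr0 : 0 < M := by linarith
  have hQ1 : 1 ≤ Q := (Real.one_le_rpow hM1 (by positivity)).trans hQM
  set L : ℝ := Real.log M with hL
  have hL0 : 0 < L := Real.log_pos (by linarith)
  set G : ℝ := GS np (PM K M) M with hG
  have hGl : (1 - ε) * rho K * L ≤ G := hG1 M hMM1
  have hGp : 0 < G := lt_of_lt_of_le (by positivity) hGl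
  have hGu : G ≤ |CU| * (1 + L) := by
    refine (hU1 M hM1).trans ?_
    have : 0 ≤ 1 + Real.log M := by linarith
    exact mul_le_mul_of_nonneg_right (le_abs_self _) this
  have hL12 : 1 + L ≤ (1 + 48 / δ₀) * M ^ (δ₀ / 48) := by
    have h1 := Real.log_le_rpow_div hMr0.le (show 0 < δ₀ / 48 by positivity)
    have h2 : 1 ≤ M ^ (δ₀ / 48) := Real.one_le_rpow hM1 (by positivity)
    have h3 : M ^ (δ₀ / 48) / (δ₀ / 48) = (48 / δ₀) * M ^ (δ₀ / 48) := by
      field_simp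
    rw [h3] at h1
    linarith
  have hG3 : G ^ 3 ≤ (|CU| * (1 + 48 / δ₀)) ^ 3 * M ^ (δ₀ / 16) := by
    have h1 : G ≤ (|CU| * (1 + 48 / δ₀)) * M ^ (δ₀ / 48) := by
      refine hGu.trans ?_
      rw [mul_assoc]
      exact mul_le_mul_of_nonneg_left hL12 (abs_nonneg _)
    refine (pow_le_pow_left₀ hGp.le h1 3).trans (le_of_eq ?_)
    rw [mul_pow _ (M ^ (δ₀ / 48)), ← Real.rpow_natCast (M ^ (δ₀ / 48)),
      ← Real.rpow_mul hMr0.le]
    congr 2
    push_cast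
    ring
  set E : ℝ := |CS| * M ^ (-(δ₀ / 8)) with hE
  have hE0 : 0 ≤ E := by positivity
  have hlow : M ^ δ₀ ≤ Q / M ^ 2 := by
    rw [le_div_iff₀ (by positivity)]
    have h1 : M ^ δ₀ * M ^ 2 = M ^ (2 + δ₀) := by
      rw [add_comm, Real.rpow_add hMr0]
      norm_num
    rw [h1]
    exact hQM
  have hSm : ∀ Z : ℝ, Q / M ^ 2 ≤ Z → Z ≤ Q * M ^ 2 →
      ‖Sm (⊤ : Ideal (𝓞 K)) Z - (((rho K / 2 * Real.log Z : ℝ) : ℂ) + C₁)‖ ≤ E := by
    intro Z hZ1 _
    have hZq : M ^ δ₀ ≤ Z := hlow.trans hZ1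
    have hZ11 : 1 ≤ Z := le_trans (Real.one_le_rpow hM1 hδ₀.le) hZq
    refine (hCS Z hZ11).trans ?_
    have b1 : Z ^ (-(1 / 8) : ℝ) ≤ M ^ (-(δ₀ / 8)) := by
      have h1 := Real.rpow_le_rpow_of_nonpos (by positivity) hZq (show (-(1 / 8) : ℝ) ≤ 0 by norm_num)
      refine h1.trans (le_of_eq ?_)
      rw [← Real.rpow_mul hMr0.le]
      congr 1
      ring
    have b8 : 0 ≤ Z ^ (-(1 / 8) : ℝ) := by positivity
    calc CS * Z ^ (-(1 / 8) : ℝ) ≤ |CS| * Z ^ (-(1 / 8) : ℝ) :=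
          mul_le_mul_of_nonneg_right (le_abs_self _) b8
      _ ≤ |CS| * M ^ (-(δ₀ / 8)) := mul_le_mul_of_nonneg_left b1 (abs_nonneg _)
      _ = E := by rw [hE]
  have main := Pool.Agent.H96.CV.diag_bound a_CX a_CM a_CB K (⊤ : Ideal (𝓞 K)) Q M E CU
    (G * L - (1 - ε) * rho K * L ^ 2 / 2) C₁ hQ1 hM1 hE0 hSm (hU2 _) (hL1 M hMM2)
  refine main.trans ?_
  -- the main terms
  have hlQ0 : 0 ≤ Real.log Q := Real.log_nonneg hQ1
  have hlQ : Real.log Q ≤ C₀ * L := by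
    have h1 := Real.log_le_log (by linarith) hQM'
    rwa [Real.log_rpow hMr0] at h1
  set w : ℝ := Real.log Q / L with hw
  have hw0 : 0 ≤ w := by positivity
  have hwC : w ≤ C₀ := by
    rw [hw, div_le_iff₀ hL0]
    exact hlQ
  set u : ℝ := rho K * L / G with hu
  have hu0 : 0 ≤ u := by positivity
  have hu1 : u ≤ 1 / (1 - ε) := by
    rw [hu, div_le_div_iff₀ hGp h1ε]
    linarith
  have p1 : rho K * (Real.log Q / G + (2 / G ^ 2 * (G * L - (1 - ε) * rho K * L ^ 2 / 2) +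
      2 / G * CU)) = u * w + (2 * u - (1 - ε) * u ^ 2) + 2 * rho K * CU / G := by
    rw [hu, hw]
    field_simp
    ring
  have p2 : u * w ≤ 1 / (1 - ε) * w := mul_le_mul_of_nonneg_right hu1 hw0
  have p3 := Pool.Agent.H96.CV.quad_le (u := u) hε1
  have p4 : 2 * rho K * CU / G + 2 * |C₁.re| / G ≤ c₆ / L := by
    rw [hc₆, ← add_div, div_div]
    have h1 : 2 * rho K * CU ≤ 2 * rho K * |CU| :=
      mul_le_mul_of_nonneg_left (le_abs_self _) (by positivity)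
    calc (2 * rho K * CU + 2 * |C₁.re|) / G ≤ (2 * rho K * |CU| + 2 * |C₁.re|) / G := by
          gcongr
      _ ≤ (2 * rho K * |CU| + 2 * |C₁.re|) / ((1 - ε) * rho K * L) := by
          gcongr
  have p5 : 2 * (G ^ 3 * E) ≤ c₇ * M ^ (-(δ₀ / 16)) := by
    have h1 : G ^ 3 * E ≤ (|CU| * (1 + 48 / δ₀)) ^ 3 * M ^ (δ₀ / 16) * E :=
      mul_le_mul_of_nonneg_right hG3 hE0
    have h2 : M ^ (δ₀ / 16) * M ^ (-(δ₀ / 8)) = M ^ (-(δ₀ / 16)) := by
      rw [← Real.rpow_add hMr0]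
      congr 1
      ring
    calc 2 * (G ^ 3 * E) ≤ 2 * ((|CU| * (1 + 48 / δ₀)) ^ 3 * M ^ (δ₀ / 16) * E) := by
          linarith
      _ = c₇ * (M ^ (δ₀ / 16) * M ^ (-(δ₀ / 8))) := by
          rw [hc₇, hE]
          ring
      _ = _ := by rw [h2]
  have p8 : 1 / (1 - ε) * w + 1 / (1 - ε) ≤ 1 + w + η / 2 := by
    have h1 : 1 / (1 - ε) = 1 + (η / 2) / V := by
      have h2 : 1 / (1 - ε) = (V / (1 - ε)) / V := by
        field_simp
      rw [h2, hVε, add_div, div_self hV0.ne']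
    have h3 : 1 / (1 - ε) * w + 1 / (1 - ε) = 1 + w + (η / 2) * ((1 + w) / V) := by
      rw [h1]
      ring
    have h4 : (1 + w) / V ≤ 1 := by
      rw [div_le_one hV0, hV]
      linarith
    have h5 : (η / 2) * ((1 + w) / V) ≤ (η / 2) * 1 :=
      mul_le_mul_of_nonneg_left h4 (by positivity)
    linarith
  rw [p1]
  linarith

end Pool.Agent.H73.SM
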